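import Pool.Agent.Q323.SplitCG.Alg

/-!
# Split clique graphs with a stable side of bounded size are recognizable in polynomial time

Vertices of the complete side with the same neighbours on the stable side are true twins, and the
class of clique graphs is closed under the addition of true twins.  So for each set of types the
vectors of the numbers of vertices of the types that belong to clique graphs form an upward closed
set, which is described by finitely many minimal vectors (Dickson's lemma).
-/

set_option autoImplicit false

namespace Pool.Agent.Results.MP_4c1bf1_lc.BoundedStableSide

open Pool.Agent.NPC Pool.Agent.H622R2 Pool.Agent.H601R2.PCG Pool.Agent.Q323.SplitCG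

/-- **For every `k`, the problem `REC_S(k)` is in `P`**: it can be decided in polynomial time
whether a graph is a split graph, with normalised partition `(Sᶜ, S)` and `|S| ≤ k`, and a clique
graph. -/
theorem result (k : ℕ) : InPP (fun M : List (List Bool) =>
    (∃ S, NormSplit (matGraph M) S ∧ S.ncard ≤ k) ∧ IsCliqueGraph (matGraph M)) :=
  inPP_of (alg_poly k) (alg_correct k)

end Pool.Agent.Results.MP_4c1bf1_lc.BoundedStableSide
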